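import Pool.Agent.Helper26.SK.EvalBasic

/-!
# Cables whose weight is divisible by three do not see the scalar part of the poles
-/

namespace Pool.Agent.Helper26.SK

open Str Piece

namespace CableC

/-- Forgetting the scalar part of the poles. -/
def forget : CS → CS
  | .pole _ e => .pole 0 e
  | .web u S => .web u S

theorem ty_forget (x : CS) : ty (forget x) = ty x := by
  cases x <;> rfl

/-- The strands of the cable replacing one strand. -/
def cab (w : List ℕ) : Str → List Str
  | pole => [pole]
  | web u _ => (if u then w else w.reverse).map (web u)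

/-- The strands of the cable. -/
def cabs (w : List ℕ) (s : List Str) : List Str := s.flatMap (cab w)

theorem length_cab (w : List ℕ) (x : Str) : (cab w x).length = width w.length x := by
  cases x with
  | pole => rfl
  | web u k => cases u <;> simp [cab, width]

theorem length_cabs (w : List ℕ) (s : List Str) :
    (cabs w s).length = (s.map (width w.length)).sum := by
  induction s with
  | nil => rfl
  | cons x s ih =>
    simp only [cabs, List.flatMap_cons, List.length_append, List.map_cons, List.sum_cons] at ih ⊢
    rw [ih, length_cab]

theorem cabs_append (w : List ℕ) (s t : List Str) : cabs w (s ++ t) = cabs w s ++ cabs w t := by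
  simp [cabs]

theorem cabs_cons (w : List ℕ) (x : Str) (t : List Str) : cabs w (x :: t) = cab w x ++ cabs w t := by
  simp [cabs]

theorem zp_add {ζ : ℂ} (h : ζ ^ 3 = 1) (x y : ZMod 3) : zp ζ (x + y) = zp ζ x * zp ζ y := by
  have key : ∀ n : ℕ, zp ζ (n : ZMod 3) = ζ ^ n := fun n => by
    rw [zp, ZMod.val_natCast]
    conv_rhs => rw [← Nat.div_add_mod n 3, pow_add, pow_mul, h, one_pow, one_mul]
  rw [← ZMod.natCast_zmod_val x, ← ZMod.natCast_zmod_val y, ← Nat.cast_add, key, key, key, pow_add]

theorem zp_zero (ζ : ℂ) : zp ζ 0 = 1 := by simp [zp]

/-- The total exponent of the crossings of two bundles. -/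
def csum (o : Bool) (X Y : List CS) : ZMod 3 :=
  (X.map fun a => (Y.map fun b => cx o a b).sum).sum

theorem act_cr {ζ : ℂ} {i : ℕ} (o : Bool) (A : List CS) (hA : A.length = i) (x y : CS)
    (B : List CS) (k : Cont) : act ζ (cr i o) (A ++ x :: y :: B) k =
      zp ζ (cx o x y) * k (A ++ y :: x :: B) := by
  have := act_shift_of_length (ζ := ζ) (cr 0 o) A (x :: y :: B) hA k
  simp only [Piece.shift, Nat.zero_add] at this
  rw [this]
  rfl

theorem actW_row {ζ : ℂ} (hζ : ζ ^ 3 = 1) (o : Bool) (x : CS) (Y A B : List CS) {i : ℕ}
    (hA : A.length = i) (k : Cont) :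
    actW ζ ((List.range Y.length).map fun y => cr (i + y) o) (A ++ x :: (Y ++ B)) k =
      zp ζ ((Y.map fun b => cx o x b).sum) * k (A ++ (Y ++ x :: B)) := by
  induction Y generalizing A i with
  | nil => simp [actW, zp_zero]
  | cons y Y ih =>
    rw [List.length_cons, List.range_succ_eq_map, List.map_cons, List.map_map, actW, Nat.add_zero,
      List.cons_append, act_cr o A hA]
    have := ih (A ++ [y]) (i := i + 1) (by simp [hA])
    simp only [List.append_assoc, List.cons_append, List.nil_append] at this
    rw [List.map_congr_left (g := fun y => cr (i + 1 + y) o), this]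
    · rw [List.map_cons, List.sum_cons, zp_add hζ, List.cons_append, mul_assoc]
    · intro j _
      simp only [Function.comp_apply, Piece.cr.injEq, and_true]
      omega

theorem actW_grid {ζ : ℂ} (hζ : ζ ^ 3 = 1) (o : Bool) (X Y A B : List CS) {i : ℕ}
    (hA : A.length = i) (k : Cont) :
    actW ζ (grid i X.length Y.length o) (A ++ (X ++ (Y ++ B))) k =
      zp ζ (csum o X Y) * k (A ++ (Y ++ (X ++ B))) := by
  induction X using List.reverseRecOn generalizing B k with
  | nil => simp [grid, actW, csum, zp_zero]
  | append_singleton X x ih =>
    have h1 : grid i (X ++ [x]).length Y.length o =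
        ((List.range Y.length).map fun y => cr (i + X.length + y) o) ++
          grid i X.length Y.length o := by
      simp [grid, List.range_succ]
    rw [h1, actW_append]
    have h2 := actW_row hζ o x Y (A ++ X) B (i := i + X.length) (by simp [hA])
      (fun t => actW ζ (grid i X.length Y.length o) t k)
    simp only [List.append_assoc, List.cons_append, List.nil_append] at h2 ⊢
    rw [h2, ih (x :: B) k, ← mul_assoc, ← zp_add hζ]
    congr 2
    simp only [csum, List.map_append, List.map_cons, List.map_nil, List.sum_append, List.sum_cons,
      List.sum_nil, add_zero]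
    ring

/-- Local minima and maxima. -/
def isCC : Piece → Bool
  | cup _ _ _ => true
  | cap _ => true
  | _ => false

/-- Pieces of links. -/
def isLk : Piece → Bool
  | cup _ _ k => decide (k = 1)
  | cap _ => true
  | cr _ _ => true
  | _ => false

theorem step_sim {ζ : ℂ} {p : Piece} {s t : List Str} (h : Step 3 p s t)
    (hp : isCC p = true) (cs : List CS)
    (hcs : cs.map ty = s) {K K' : Cont}
    (hK : ∀ x : List CS, x.map ty = t → K x = K' (x.map forget)) :
    act ζ p cs K = act ζ p (cs.map forget) K' := by
  cases h with
  | cup A B u k h =>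
    obtain ⟨A', B', rfl, hA, hB⟩ := List.map_eq_append_iff.1 hcs
    have hl : A'.length = A.length := by rw [← hA, List.length_map]
    have e1 := act_shift_of_length (ζ := ζ) (cup 0 u k) A' B' hl K
    have e2 := act_shift_of_length (ζ := ζ) (cup 0 u k) (n := A.length) (A'.map forget)
      (B'.map forget) (by rw [List.length_map, hl]) K'
    simp only [Piece.shift, Nat.zero_add] at e1 e2
    rw [e1, List.map_append, e2]
    simp only [act, actAt, base, baseLoc, Piece.pos, Piece.inn, Nat.zero_le, ↓reduceIte, loc,
      List.map_map, Function.comp_def, List.drop_zero]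
    congr 1
    apply List.map_congr_left
    intro S hS
    simp only [List.mem_filter, decide_eq_true_eq] at hS
    rw [hK]
    · simp [forget]
    · simp [ty, hA, hB, hS.2]
  | cap A B u k =>
    rw [List.append_assoc] at hcs
    obtain ⟨A', C', rfl, hA, hC⟩ := List.map_eq_append_iff.1 hcs
    obtain ⟨X', B', rfl, hX, hB⟩ := List.map_eq_append_iff.1 hC
    obtain ⟨S, T, rfl, hS, hT⟩ : ∃ S T, X' = [CS.web u S, CS.web (!u) T] ∧ card S = k ∧
        card T = k := by
      obtain ⟨a, b, rfl⟩ : ∃ a b, X' = [a, b] := by
        apply List.length_eq_two.1
        simpa using congrArg List.length hX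
      cases a with
      | pole c e => simp [ty] at hX
      | web v S =>
        cases b with
        | pole c e => simp [ty] at hX
        | web v' T =>
          simp only [List.map_cons, ty, List.map_nil, List.cons.injEq, Str.web.injEq,
            and_true] at hX
          obtain ⟨⟨rfl, h1⟩, rfl, h2⟩ := hX
          exact ⟨S, T, rfl, h1, h2⟩
    have hl : A'.length = A.length := by rw [← hA, List.length_map]
    have e1 := act_shift_of_length (ζ := ζ) (cap 0) A' ([CS.web u S, CS.web (!u) T] ++ B') hl K
    have e2 := act_shift_of_length (ζ := ζ) (cap 0) (n := A.length) (A'.map forget)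
      (([CS.web u S, CS.web (!u) T] ++ B').map forget) (by rw [List.length_map, hl]) K'
    simp only [Piece.shift, Nat.zero_add] at e1 e2
    rw [e1, List.map_append, e2]
    simp only [act, actAt, base, baseLoc, Piece.pos, Piece.inn, loc, locCap, List.length_cons,
      List.map_cons, forget, List.cons_append, List.nil_append]
    by_cases hST : S = T
    · subst hST
      have := hK (A' ++ B') (by simp [hA, hB])
      simp [this]
    · simp [hST]
  | cr A B x y o h => simp [isCC] at hp
  | merge A B k l h => simp [isCC] at hp
  | split A B k l h => simp [isCC] at hp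

theorem run_sim {ζ : ℂ} {D : List Piece} {s t : List Str} (h : Run 3 D s t)
    (hD : ∀ p ∈ D, isCC p = true) (cs : List CS)
    (hcs : cs.map ty = s) {K K' : Cont}
    (hK : ∀ x : List CS, x.map ty = t → K x = K' (x.map forget)) :
    actW ζ D cs K = actW ζ D (cs.map forget) K' := by
  induction D generalizing s cs with
  | nil =>
    cases h
    exact hK cs hcs
  | cons p D ih =>
    obtain ⟨r, hr, h⟩ := h
    rw [actW, actW]
    exact step_sim hr (hD p (by simp)) cs hcs
      (fun x hx => ih h (fun q hq => hD q (by simp [hq])) x hx)

theorem run_cups (u : Bool) (W : List ℕ) (hW : ∀ k ∈ W, 0 < k ∧ k < 3) (A B : List Str) {i : ℕ}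
    (hA : A.length = i) :
    Run 3 (W.mapIdx fun j k => cup (i + j) u k) (A ++ B)
      (A ++ (W.map (web u) ++ (W.reverse.map (web !u) ++ B))) := by
  induction W generalizing A B i with
  | nil => simp [run_nil]
  | cons k W ih =>
    rw [List.mapIdx_cons, run_cons]
    refine ⟨A ++ [web u k, web (!u) k] ++ B, ?_, ?_⟩
    · have := Step.cup (d := 3) A B u k (hW k (by simp))
      rwa [hA] at this
    · have := ih (fun k hk => hW k (by simp [hk])) (A ++ [web u k]) (web (!u) k :: B) (i := i + 1)
        (by simp [hA])
      simp only [List.append_assoc, List.cons_append, List.nil_append, List.map_cons,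
        List.reverse_cons, List.map_append, List.map_nil] at this ⊢
      have e : (fun j k => cup (i + (j + 1)) u k) = fun j k => cup (i + 1 + j) u k := by
        funext j k
        rw [Nat.add_assoc, Nat.add_comm 1 j]
      rw [e]
      exact this

theorem run_caps (u : Bool) (W : List ℕ) (A B : List Str) {i : ℕ} (hA : A.length = i) :
    Run 3 ((List.range W.length).reverse.map fun j => cap (i + j))
      (A ++ (W.map (web u) ++ (W.reverse.map (web !u) ++ B))) (A ++ B) := by
  induction W using List.reverseRecOn generalizing B with
  | nil => simp [run_nil]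
  | append_singleton W k ih =>
    have h1 : ((List.range (W ++ [k]).length).reverse.map fun j => cap (i + j)) =
        cap (i + W.length) :: (List.range W.length).reverse.map fun j => cap (i + j) := by
      simp [List.range_succ]
    rw [h1, run_cons]
    refine ⟨_, ?_, ih B⟩
    have := Step.cap (d := 3) (A ++ W.map (web u)) (W.reverse.map (web !u) ++ B) u k
    simpa [hA] using this

theorem forget_web {u : Bool} {W : List ℕ} {X : List CS} (h : X.map ty = W.map (web u)) :
    X.map forget = X := by
  induction X generalizing W with
  | nil => rfl
  | cons x X ih =>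
    cases W with
    | nil => simp at h
    | cons k W =>
      simp only [List.map_cons, List.cons.injEq] at h
      rw [List.map_cons, ih h.2]
      cases x with
      | pole c e => simp [ty] at h
      | web v S => rfl

theorem sum_pole_web (o u : Bool) (c e : ZMod 3) (W : List ℕ) (Y : List CS)
    (h : Y.map ty = W.map (web u)) :
    (Y.map fun b => cx o (CS.pole c e) b).sum = (Y.map fun b => cx o (CS.pole 0 e) b).sum +
      (if o then (if u then -c else c) else 0) * ((W.sum : ℕ) : ZMod 3) := by
  induction Y generalizing W with
  | nil =>
    cases W with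
    | nil => simp
    | cons k W => simp at h
  | cons y Y ih =>
    cases W with
    | nil => simp at h
    | cons k W =>
      simp only [List.map_cons, List.cons.injEq] at h
      rw [List.map_cons, List.map_cons, List.sum_cons, List.sum_cons, List.sum_cons, ih W h.2]
      cases y with
      | pole c e => simp [ty] at h
      | web v S =>
        simp only [ty, Str.web.injEq] at h
        obtain ⟨⟨rfl, rfl⟩, -⟩ := h
        push_cast
        cases o <;> cases v <;> simp [cx, chi] <;> ring

theorem sum_web_pole (o u : Bool) (c e : ZMod 3) (W : List ℕ) (X : List CS)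
    (h : X.map ty = W.map (web u)) :
    (X.map fun a => cx o a (CS.pole c e)).sum = (X.map fun a => cx o a (CS.pole 0 e)).sum +
      (if o then 0 else (if u then c else -c)) * ((W.sum : ℕ) : ZMod 3) := by
  induction X generalizing W with
  | nil =>
    cases W with
    | nil => simp
    | cons k W => simp at h
  | cons y Y ih =>
    cases W with
    | nil => simp at h
    | cons k W =>
      simp only [List.map_cons, List.cons.injEq] at h
      rw [List.map_cons, List.map_cons, List.sum_cons, List.sum_cons, List.sum_cons, ih W h.2]
      cases y with
      | pole c e => simp [ty] at h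
      | web v S =>
        simp only [ty, Str.web.injEq] at h
        obtain ⟨⟨rfl, rfl⟩, -⟩ := h
        push_cast
        cases o <;> cases v <;> simp [cx, chi] <;> ring

theorem cast_sum (w : List ℕ) (h3 : 3 ∣ w.sum) (u : Bool) :
    (((if u then w else w.reverse).sum : ℕ) : ZMod 3) = 0 := by
  have : (if u then w else w.reverse).sum = w.sum := by
    cases u <;> simp
  rw [this]
  exact (ZMod.natCast_eq_zero_iff _ _).2 h3

theorem csum_forget (w : List ℕ) (h3 : 3 ∣ w.sum) (o : Bool) (x y : Str)
    (hxy : ¬ (x = pole ∧ y = pole)) (X Y : List CS) (hX : X.map ty = cab w x)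
    (hY : Y.map ty = cab w y) :
    csum o X Y = csum o (X.map forget) (Y.map forget) := by
  cases x with
  | pole =>
    cases y with
    | pole => simp at hxy
    | web u k =>
      obtain ⟨a, rfl⟩ : ∃ a, X = [a] := by
        apply List.length_eq_one_iff.1
        simpa [cab] using congrArg List.length hX
      cases a with
      | web v S => simp [ty, cab] at hX
      | pole c e =>
        rw [cab] at hY
        rw [forget_web hY]
        simp only [csum, List.map_cons, List.map_nil, List.sum_cons, List.sum_nil, add_zero, forget]
        rw [sum_pole_web o u c e _ Y hY, cast_sum w h3 u, mul_zero, add_zero]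
  | web u k =>
    cases y with
    | web u' k' => rw [forget_web hX, forget_web hY]
    | pole =>
      obtain ⟨a, rfl⟩ : ∃ a, Y = [a] := by
        apply List.length_eq_one_iff.1
        simpa [cab] using congrArg List.length hY
      cases a with
      | web v S => simp [ty, cab] at hY
      | pole c e =>
        rw [cab] at hX
        rw [forget_web hX]
        simp only [csum, List.map_cons, List.map_nil, List.sum_cons, List.sum_nil, add_zero, forget]
        rw [sum_web_pole o u c e _ X hX, cast_sum w h3 u, mul_zero, add_zero]

theorem off_append (w : List ℕ) (A B : List Str) :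
    off w.length (A ++ B) A.length = (cabs w A).length := by
  rw [off, List.take_left, length_cabs]

theorem isCC_cups (u : Bool) (W : List ℕ) (i : ℕ) :
    ∀ p ∈ W.mapIdx (fun j k => cup (i + j) u k), isCC p = true := by
  intro p hp
  rw [List.mem_mapIdx] at hp
  obtain ⟨j, hj, rfl⟩ := hp
  rfl

theorem isCC_caps (n i : ℕ) :
    ∀ p ∈ (List.range n).reverse.map (fun j => cap (i + j)), isCC p = true := by
  intro p hp
  rw [List.mem_map] at hp
  obtain ⟨j, -, rfl⟩ := hp
  rfl

theorem cable_sim {ζ : ℂ} (hζ : ζ ^ 3 = 1) {w : List ℕ} (hw : ∀ k ∈ w, 0 < k ∧ k < 3)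
    (h3 : 3 ∣ w.sum) {L : List Piece} {s t : List Str} (h : Run 3 L s t)
    (hL : ∀ p ∈ L, isLk p = true) (cs : List CS) (hcs : cs.map ty = cabs w s) (K K' : Cont)
    (hK : ∀ x : List CS, x.map ty = cabs w t → K x = K' (x.map forget)) :
    actW ζ (cable w L s) cs K = actW ζ (cable w L s) (cs.map forget) K' := by
  induction L generalizing s cs with
  | nil =>
    cases h
    exact hK cs hcs
  | cons p L ih =>
    obtain ⟨r, hr, h⟩ := h
    have hL' := fun q hq => hL q (List.mem_cons_of_mem p hq)
    have ih' := fun cs hcs => ih h hL' cs hcs
    cases hr with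
    | cup A B u k hk =>
      have hk1 : k = 1 := by simpa [isLk] using hL (cup A.length u k) (by simp)
      subst hk1
      have hc : cable w (cup A.length u 1 :: L) (A ++ B) =
          ((if u then w else w.reverse).mapIdx fun j k => cup ((cabs w A).length + j) u k) ++
            cable w L (A ++ [web u 1, web (!u) 1] ++ B) := by
        rw [cable, off_append]
        simp
      rw [hc, actW_append, actW_append]
      have hW : ∀ k ∈ (if u then w else w.reverse), 0 < k ∧ k < 3 := by
        intro k hk
        apply hw
        cases u <;> simpa using hk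
      refine run_sim (run_cups u _ hW (cabs w A) (cabs w B) rfl) (isCC_cups _ _ _) cs
        (by rw [hcs, cabs_append]) (fun x hx => ih' x ?_)
      rw [hx, cabs_append, cabs_append, cabs_cons, cabs_cons]
      cases u <;> simp [cab, cabs]
    | cap A B u k =>
      have hc : cable w (cap A.length :: L) (A ++ [web u k, web (!u) k] ++ B) =
          ((List.range w.length).reverse.map fun j => cap ((cabs w A).length + j)) ++
            cable w L (A ++ B) := by
        rw [cable, List.append_assoc, off_append]
        simp
      rw [hc, actW_append, actW_append]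
      have hl : w.length = (if u then w else w.reverse).length := by cases u <;> simp
      rw [hl]
      refine run_sim (run_caps u _ (cabs w A) (cabs w B) rfl) (isCC_caps _ _) cs
        (by
          rw [hcs, cabs_append, cabs_append, cabs_cons, cabs_cons]
          cases u <;> simp [cab, cabs]) (fun x hx => ih' x ?_)
      rw [hx, cabs_append]
    | cr A B x y o hxy =>
      have hc : cable w (cr A.length o :: L) (A ++ [x, y] ++ B) =
          grid (cabs w A).length (cab w x).length (cab w y).length o ++
            cable w L (A ++ [y, x] ++ B) := by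
        rw [cable, List.append_assoc, off_append]
        simp [length_cab]
      rw [hc, actW_append, actW_append]
      have hn : cabs w [] = [] := rfl
      rw [List.append_assoc, cabs_append, cabs_append, cabs_cons, cabs_cons, hn, List.append_nil,
        List.append_assoc] at hcs
      obtain ⟨A', C', rfl, hA, hC⟩ := List.map_eq_append_iff.1 hcs
      obtain ⟨X, C', rfl, hX, hC⟩ := List.map_eq_append_iff.1 hC
      obtain ⟨Y, B', rfl, hY, hB⟩ := List.map_eq_append_iff.1 hC
      rw [← hX, ← hY, List.length_map, List.length_map,
        actW_grid hζ o X Y A' B' (by rw [← hA, List.length_map])]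
      rw [List.map_append, List.map_append, List.map_append]
      have e1 := actW_grid hζ o (X.map forget) (Y.map forget) (A'.map forget) (B'.map forget)
        (i := (cabs w A).length) (by rw [← hA, List.length_map, List.length_map])
        (fun t => actW ζ (cable w L (A ++ [y, x] ++ B)) t K')
      rw [List.length_map, List.length_map] at e1
      rw [e1, csum_forget w h3 o x y hxy X Y hX hY]
      congr 1
      rw [ih', List.map_append, List.map_append, List.map_append]
      simp only [List.map_append, hA, hX, hY, hB, cabs_append, cabs_cons, hn, List.append_nil,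
        List.append_assoc]
    | merge A B k l hk => simpa [isLk] using hL (merge A.length k l) (by simp)
    | split A B k l hk => simpa [isLk] using hL (split A.length k l) (by simp)

end CableC

theorem ev_cable {ζ : ℂ} (hζ : ζ ^ 3 = 1) {L : List Piece} (hL : IsLink 3 3 L) {w : List ℕ}
    (hw : ∀ k ∈ w, 0 < k ∧ k < 3) (h3 : 3 ∣ w.sum) (c e₁ c₂ e₂ c₃ e₃ : ZMod 3) :
    ev ζ [CS.pole c e₁, CS.pole c₂ e₂, CS.pole c₃ e₃] (cable w L (poles 3)) =
      ev ζ [CS.pole 0 e₁, CS.pole c₂ e₂, CS.pole c₃ e₃] (cable w L (poles 3)) := by
  have key := fun c => CableC.cable_sim hζ hw h3 hL.1 (fun p hp => by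
    have := hL.2 p hp
    cases p <;> simp_all [CableC.isLk]) [CS.pole c e₁, CS.pole c₂ e₂, CS.pole c₃ e₃] (by rfl) (fun _ => 1)
      (fun _ => 1) (fun _ _ => rfl)
  rw [ev, ev, key c, key 0]
  rfl

end Pool.Agent.Helper26.SK
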