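import Pool.Agent.Helper26.SK.EvalBasic

/-!
# The skein relations hold for the evaluation
-/

namespace Pool.Agent.Helper26.SK

open Str Piece

namespace SkeinChk

/-- Formal integral combinations of lists of coloured strands. -/
abbrev FS : Type := List (ℤ × List CS)

/-- The value of a formal combination. -/
noncomputable def val (Z : FS) (f : List CS → ℂ) : ℂ := (Z.map fun x => (x.1 : ℂ) * f x.2).sum

theorem val_nil (f : List CS → ℂ) : val [] f = 0 := rfl

theorem val_cons (x : ℤ × List CS) (Z : FS) (f : List CS → ℂ) :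
    val (x :: Z) f = (x.1 : ℂ) * f x.2 + val Z f := by
  simp [val]

theorem val_append (Z Z' : FS) (f : List CS → ℂ) : val (Z ++ Z') f = val Z f + val Z' f := by
  simp [val]

theorem val_scale (c : ℤ) (Z : FS) (f : List CS → ℂ) :
    val (Z.map fun x => (c * x.1, x.2)) f = (c : ℂ) * val Z f := by
  induction Z with
  | nil => simp [val]
  | cons x Z ih =>
    rw [List.map_cons, val_cons, val_cons, ih]
    push_cast
    ring

/-- Adding a term. -/
def addT (a : ℤ) (y : List CS) : FS → FS
  | [] => [(a, y)]
  | (b, z) :: Z => if y = z then (a + b, z) :: Z else (b, z) :: addT a y Z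

/-- Collecting the terms. -/
def norm : FS → FS
  | [] => []
  | (a, y) :: Z => addT a y (norm Z)

theorem val_addT (a : ℤ) (y : List CS) (Z : FS) (f : List CS → ℂ) :
    val (addT a y Z) f = (a : ℂ) * f y + val Z f := by
  induction Z with
  | nil => simp [addT, val]
  | cons x Z ih =>
    obtain ⟨b, z⟩ := x
    unfold addT
    split_ifs with h
    · subst h
      rw [val_cons, val_cons]
      push_cast
      ring
    · rw [val_cons, val_cons, ih]
      ring

theorem val_norm (Z : FS) (f : List CS → ℂ) : val (norm Z) f = val Z f := by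
  induction Z with
  | nil => rfl
  | cons x Z ih =>
    obtain ⟨a, y⟩ := x
    rw [norm, val_addT, val_cons, ih]

/-- The test for equality of formal combinations. -/
def eqFS (Z Z' : FS) : Bool :=
  (norm (Z ++ Z'.map fun x => (-1 * x.1, x.2))).all fun x => x.1 == 0

theorem val_eq_zero_of_all (Z : FS) (h : (Z.all fun x => x.1 == 0) = true) (f : List CS → ℂ) :
    val Z f = 0 := by
  induction Z with
  | nil => rfl
  | cons x Z ih =>
    simp only [List.all_cons, Bool.and_eq_true, beq_iff_eq] at h
    rw [val_cons, ih h.2, h.1]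
    simp

theorem eqFS_sound {Z Z' : FS} (h : eqFS Z Z' = true) (f : List CS → ℂ) : val Z f = val Z' f := by
  have := val_eq_zero_of_all _ h f
  rw [val_norm, val_append, val_scale] at this
  push_cast at this
  linear_combination this

/-- Crossings. -/
def isCr : Piece → Bool
  | cr _ _ => true
  | _ => false

/-- The formal action of a piece. -/
def stepZ (p : Piece) (s : List CS) : Option FS :=
  if isCr p = false ∧ p.pos + p.inn 3 ≤ s.length then
    some ((loc p ((s.drop p.pos).take (p.inn 3))).map fun x =>
      (x.1, s.take p.pos ++ (x.2 ++ (s.drop p.pos).drop (p.inn 3))))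
  else none

/-- The formal action on combinations. -/
def bindZ (f : List CS → Option FS) : FS → Option FS
  | [] => some []
  | x :: Z =>
    match f x.2, bindZ f Z with
    | some a, some b => some ((a.map fun y => (x.1 * y.1, y.2)) ++ b)
    | _, _ => none

/-- The formal action of a diagram. -/
def runZ : List Piece → List CS → Option FS
  | [], s => some [(1, s)]
  | p :: D, s =>
    match stepZ p s with
    | some Z => bindZ (runZ D) Z
    | none => none

/-- The formal action of a combination of diagrams. -/
def evalZ : List (ℤ × List Piece) → List CS → Option FS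
  | [], _ => some []
  | x :: X, s =>
    match runZ x.2 s, evalZ X s with
    | some a, some b => some ((a.map fun y => (x.1 * y.1, y.2)) ++ b)
    | _, _ => none

theorem actAt_append (f : List CS → Cont → ℂ) (A s : List CS) (k : Cont) :
    actAt f A.length (A ++ s) k = f s (fun t => k (A ++ t)) := by
  induction A generalizing k with
  | nil => rfl
  | cons c A ih =>
    rw [List.length_cons, List.cons_append, actAt, ih]
    rfl

theorem base_of_not_cr {ζ : ℂ} {p : Piece} (h : isCr p = false) (s : List CS) (k : Cont) :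
    base ζ p s k = baseLoc p s k := by
  cases p with
  | cr i o => simp [isCr] at h
  | _ => rfl

theorem stepZ_sound {ζ : ℂ} {p : Piece} {s : List CS} {Z : FS} (h : stepZ p s = some Z)
    (B : List CS) (k : Cont) : act ζ p (s ++ B) k = val Z (fun t => k (t ++ B)) := by
  unfold stepZ at h
  split_ifs at h with hc
  obtain ⟨h1, h2⟩ := hc
  obtain ⟨A, r, rfl, hA⟩ : ∃ A r, s = A ++ r ∧ A.length = p.pos :=
    ⟨s.take p.pos, s.drop p.pos, (List.take_append_drop _ _).symm,
      List.length_take_of_le (by omega)⟩
  rw [← hA] at h h2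
  simp only [List.drop_left, List.take_left, Option.some.injEq, List.length_append] at h h2
  subst h
  unfold act
  rw [← hA, List.append_assoc, actAt_append, base_of_not_cr h1, baseLoc, if_pos, val, List.map_map]
  · rw [List.take_append_of_le_length (by omega), List.drop_append_of_le_length (by omega)]
    congr 1
    apply List.map_congr_left
    intro x _
    simp
  · simp only [List.length_append]
    omega

theorem bindZ_sound {f : List CS → Option FS} {F G : List CS → ℂ}
    (h : ∀ s Z, f s = some Z → F s = val Z G) {Z Z' : FS} (hZ : bindZ f Z = some Z') :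
    val Z F = val Z' G := by
  induction Z generalizing Z' with
  | nil =>
    simp only [bindZ, Option.some.injEq] at hZ
    subst hZ
    rfl
  | cons x Z ih =>
    unfold bindZ at hZ
    split at hZ
    · next a b ha hb =>
      simp only [Option.some.injEq] at hZ
      subst hZ
      rw [val_cons, val_append, val_scale, ← h _ _ ha, ih hb]
    · simp at hZ

theorem runZ_sound {ζ : ℂ} {D : List Piece} {s : List CS} {Z : FS} (h : runZ D s = some Z)
    (B : List CS) (k : Cont) : actW ζ D (s ++ B) k = val Z (fun t => k (t ++ B)) := by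
  induction D generalizing s Z with
  | nil =>
    simp only [runZ, Option.some.injEq] at h
    subst h
    simp [actW, val]
  | cons p D ih =>
    unfold runZ at h
    split at h
    · next Z₁ h₁ =>
      rw [actW, stepZ_sound h₁]
      exact bindZ_sound (fun s Z hs => ih hs) h
    · simp at h

/-- The value of a combination of diagrams. -/
noncomputable def sm (ζ : ℂ) (X : List (ℤ × List Piece)) (s : List CS) (k : Cont) : ℂ :=
  (X.map fun x => (x.1 : ℂ) * actW ζ x.2 s k).sum

theorem evalZ_sound {ζ : ℂ} {X : List (ℤ × List Piece)} {s : List CS} {Z : FS}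
    (h : evalZ X s = some Z) (B : List CS) (k : Cont) :
    sm ζ X (s ++ B) k = val Z (fun t => k (t ++ B)) := by
  induction X generalizing Z with
  | nil =>
    simp only [evalZ, Option.some.injEq] at h
    subst h
    rfl
  | cons x X ih =>
    unfold evalZ at h
    split at h
    · next a b ha hb =>
      simp only [Option.some.injEq] at h
      subst h
      rw [val_append, val_scale, ← ih hb, ← runZ_sound (ζ := ζ) ha]
      simp [sm]
    · simp at h

/-- The test for one relation and one colouring. -/
def chk (X Y : List (ℤ × List Piece)) (s : List CS) : Bool :=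
  match evalZ X s, evalZ Y s with
  | some Z, some Z' => eqFS Z Z'
  | _, _ => false

theorem chk_sound {ζ : ℂ} {X Y : List (ℤ × List Piece)} {s : List CS} (h : chk X Y s = true)
    (B : List CS) (k : Cont) : sm ζ X (s ++ B) k = sm ζ Y (s ++ B) k := by
  unfold chk at h
  split at h
  · next Z Z' hZ hZ' =>
    rw [evalZ_sound hZ, evalZ_sound hZ', eqFS_sound h]
  · simp at h

/-- The test for one combination, one colouring and a given result. -/
def chk' (X : List (ℤ × List Piece)) (s : List CS) (Z' : FS) : Bool :=
  match evalZ X s with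
  | some Z => eqFS Z Z'
  | _ => false

theorem chk'_sound {ζ : ℂ} {X : List (ℤ × List Piece)} {s : List CS} {Z' : FS}
    (h : chk' X s Z' = true) (B : List CS) (k : Cont) :
    sm ζ X (s ++ B) k = val Z' (fun t => k (t ++ B)) := by
  unfold chk' at h
  split at h
  · next Z hZ =>
    rw [evalZ_sound hZ, eqFS_sound h]
  · simp at h

/-- All the colourings. -/
def colors : List Str → List (List CS)
  | [] => [[]]
  | pole :: _ => []
  | web u k :: s =>
    ((List.finRange 8).filter fun S => card S = k).flatMap fun S =>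
      (colors s).map fun c => CS.web u S :: c

theorem mem_colors {s : List Str} {cs : List CS} (h : cs.map ty = s)
    (hs : ∀ x ∈ s, x ≠ pole) : cs ∈ colors s := by
  induction s generalizing cs with
  | nil =>
    simp only [List.map_eq_nil_iff] at h
    subst h
    simp [colors]
  | cons x s ih =>
    match cs, h with
    | c :: cs, h =>
      simp only [List.map_cons, List.cons.injEq] at h
      obtain ⟨h1, h2⟩ := h
      have hx := hs x (by simp)
      have h3 := ih h2 (fun y hy => hs y (by simp [hy]))
      cases c with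
      | pole c e => exact absurd h1.symm hx
      | web u S =>
        subst h1
        simp only [ty, colors, List.mem_flatMap, List.mem_filter, List.mem_finRange, true_and,
          decide_eq_true_eq, List.mem_map]
        exact ⟨S, rfl, cs, h3, rfl⟩

/-- The binomial coefficients. -/
def binZ : ℤ → ℕ → ℤ
  | .ofNat n, t => Nat.choose n t
  | .negSucc n, t => (-1) ^ t * Nat.choose (n + t) t

theorem qbinN_one (n t : ℕ) : qbinN 1 n t = Nat.choose n t := by
  induction n generalizing t with
  | zero => cases t <;> simp [qbinN]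
  | succ n ih =>
    cases t with
    | zero => simp [qbinN]
    | succ t =>
      simp only [qbinN, ih, one_pow, one_mul, inv_one, Nat.choose_succ_succ]
      push_cast
      ring

theorem qbin_one (n : ℤ) (t : ℕ) : qbin 1 n t = (binZ n t : ℂ) := by
  cases n with
  | ofNat n => simp [qbin, binZ, qbinN_one]
  | negSucc n => simp [qbin, binZ, qbinN_one]

theorem lab_ne_pole {k : ℕ} : ∀ x ∈ lab 3 k, x ≠ pole := by
  unfold lab
  split_ifs <;> simp

theorem sm_eq {ζ : ℂ} {X : List (ℂ × List Piece)} (X' : List (ℤ × List Piece))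
    (h : X = X'.map fun x => ((x.1 : ℂ), x.2)) (s : List CS) (k : Cont) :
    (X.map fun x => x.1 * actW ζ x.2 s k).sum = sm ζ X' s k := by
  subst h
  rw [sm, List.map_map]
  rfl

end SkeinChk


namespace SkeinChk

theorem digon_chk : ∀ k < 4, ∀ l < 4, (0 < k ∧ 0 < l ∧ k + l ≤ 3) →
    ∀ cs ∈ colors (lab 3 (k + l)),
      chk [(1, [split 0 k l, merge 0 k l])] [(binZ ((k + l : ℕ) : ℤ) k, [])] cs = true := by
  decide +kernel

theorem loopR_chk : ∀ k < 4, ∀ l < 4, (0 < l ∧ l < 3 ∧ k + l ≤ 3) →
    ∀ cs ∈ colors (lab 3 k),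
      chk [(1, [cup (vis 3 k) true l] ++ mg 0 k l ++ sp 0 k l ++ [cap (vis 3 k)])]
        [(binZ ((3 - k : ℕ) : ℤ) l, [])] cs = true := by
  decide +kernel

theorem loopL_chk : ∀ k < 4, ∀ l < 4, (0 < l ∧ l < 3 ∧ k + l ≤ 3) →
    ∀ cs ∈ colors (lab 3 k),
      chk [(1, [cup 0 false l] ++ mg 1 l k ++ sp 1 l k ++ [cap 0])]
        [(binZ ((3 - k : ℕ) : ℤ) l, [])] cs = true := by
  decide +kernel

theorem assocMerge_chk : ∀ k < 4, ∀ l < 4, ∀ j < 4, (0 < k ∧ 0 < l ∧ 0 < j ∧ k + l + j ≤ 3) →
    ∀ cs ∈ colors [web true k, web true l, web true j],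
      chk [(1, [merge 0 k l, merge 0 (k + l) j])] [(1, [merge 1 l j, merge 0 k (l + j)])] cs
        = true := by
  decide +kernel

theorem assocSplit_chk : ∀ k < 4, ∀ l < 4, ∀ j < 4, (0 < k ∧ 0 < l ∧ 0 < j ∧ k + l + j ≤ 3) →
    ∀ cs ∈ colors (lab 3 (k + l + j)),
      chk [(1, [split 0 (k + l) j, split 0 k l])] [(1, [split 0 k (l + j), split 1 l j])] cs
        = true := by
  decide +kernel

theorem tagMerge_chk : ∀ k < 4, ∀ l < 4, (0 < k ∧ 0 < l ∧ k + l = 3) →
    ∀ cs ∈ colors [web true l],
      chk [(1, [cup 0 false k, merge 1 k l])] [((-1) ^ (k * l), [cup 1 true k, merge 0 l k])] cs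
        = true := by
  decide +kernel

theorem tagSplit_chk : ∀ k < 4, ∀ l < 4, (0 < k ∧ 0 < l ∧ k + l = 3) →
    ∀ cs ∈ colors [web false k],
      chk [(1, [split 1 k l, cap 0])] [((-1) ^ (k * l), [split 0 l k, cap 1])] cs
        = true := by
  decide +kernel

/-- The test for `squareFE`. -/
def tFE (k l r s : ℕ) : Bool :=
  (colors (lab 3 k ++ lab 3 l)).all fun cs =>
    chk [(1, ladF 3 k l s ++ ladE 3 (k + s) (l - s) r)]
      (((List.range (min r s + 1)).filter fun t => r ≤ k + t ∧ l + r ≤ 3 + t).map fun t =>
        (binZ ((l : ℤ) - k + r - s) t,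
          ladE 3 k l (r - t) ++ ladF 3 (k - (r - t)) (l + (r - t)) (s - t))) cs

theorem squareFE_chk : ((List.range 4).all fun k => (List.range 7).all fun l =>
    (List.range 4).all fun r => (List.range 4).all fun s =>
    !decide (s ≤ l ∧ k + s ≤ 3 ∧ r ≤ k + s ∧ l - s + r ≤ 3) || tFE k l r s) = true := by
  decide +kernel

/-- The test for `squareEF`. -/
def tEF (k l r s : ℕ) : Bool :=
  (colors (lab 3 k ++ lab 3 l)).all fun cs =>
    chk [(1, ladE 3 k l r ++ ladF 3 (k - r) (l + r) s)]
      (((List.range (min r s + 1)).filter fun t => s ≤ l + t ∧ k + s ≤ 3 + t).map fun t =>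
        (binZ ((k : ℤ) - l + s - r) t,
          ladF 3 k l (s - t) ++ ladE 3 (k + (s - t)) (l - (s - t)) (r - t))) cs

theorem squareEF_chk : ((List.range 7).all fun k => (List.range 4).all fun l =>
    (List.range 4).all fun r => (List.range 4).all fun s =>
    !decide (r ≤ k ∧ l + r ≤ 3 ∧ s ≤ l + r ∧ k - r + s ≤ 3) || tEF k l r s) = true := by
  decide +kernel

/-- The two strands interchanged. -/
def flip : List CS → FS
  | [x, y] => [(1, [y, x])]
  | _ => []

theorem crossGe_chk : ∀ k < 4, ∀ l < 4, (0 < l ∧ l ≤ k ∧ k < 3) →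
    ∀ cs ∈ colors [web true k, web true l],
      chk' ((List.range (min l (3 - k) + 1)).map fun t =>
          ((-1) ^ (l + k * l) * (-1) ^ t,
            ladF 3 k l t ++ ladE 3 (k + t) (l - t) (k - l + t))) cs (flip cs) = true := by
  decide +kernel

theorem crossLe_chk : ∀ k < 4, ∀ l < 4, (0 < k ∧ k ≤ l ∧ l < 3) →
    ∀ cs ∈ colors [web true k, web true l],
      chk' ((List.range (min k (3 - l) + 1)).map fun t =>
          ((-1) ^ (k + k * l) * (-1) ^ t,
            ladE 3 k l t ++ ladF 3 (k - t) (l + t) (l - k + t))) cs (flip cs) = true := by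
  decide +kernel

theorem zp_natCast {ζ : ℂ} (h : ζ ^ 3 = 1) (n : ℕ) : zp ζ (n : ZMod 3) = ζ ^ n := by
  rw [zp, ZMod.val_natCast]
  conv_rhs => rw [← Nat.div_add_mod n 3, pow_add, pow_mul, h, one_pow, one_mul]

theorem zp_add {ζ : ℂ} (h : ζ ^ 3 = 1) (x y : ZMod 3) : zp ζ (x + y) = zp ζ x * zp ζ y := by
  rw [← ZMod.natCast_zmod_val x, ← ZMod.natCast_zmod_val y, ← Nat.cast_add, zp_natCast h,
    zp_natCast h, zp_natCast h, pow_add]

theorem zp_neg_natCast {ζ : ℂ} (h : ζ ^ 3 = 1) (n : ℕ) : zp ζ (-(n : ZMod 3)) = ζ⁻¹ ^ n := by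
  have h0 : ζ ≠ 0 := by
    rintro rfl
    simp at h
  have h1 := zp_add h (n : ZMod 3) (-(n : ZMod 3))
  rw [add_neg_cancel, zp_natCast h] at h1
  have h2 : zp ζ 0 = 1 := by simp [zp]
  rw [h2] at h1
  rw [inv_pow]
  exact eq_inv_of_mul_eq_one_right h1.symm

theorem b_cube {ζ b : ℂ} {o : Bool} (hζ : ζ ^ 3 = 1) (hb : b = if o then ζ else ζ⁻¹) :
    b ^ 3 = 1 := by
  subst hb
  cases o <;> simp [hζ]

theorem cross_aux {ζ b : ℂ} {o : Bool} (hζ : ζ ^ 3 = 1) {k' l : ℕ} {cs : List CS}
    (hcs : cs.map ty = [web true k', web true l]) (hb : b = if o then ζ else ζ⁻¹)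
    (X' : List (ℤ × List Piece)) {X : List (ℂ × List Piece)}
    (hX : X = X'.map fun x => ((x.1 : ℂ) * b⁻¹ ^ (k' * l), x.2))
    (h : chk' X' cs (flip cs) = true) (B : List CS) (k : Cont) :
    (([(1, [cr 0 o])] : List (ℂ × List Piece)).map fun x => x.1 * actW ζ x.2 (cs ++ B) k).sum =
      (X.map fun x => x.1 * actW ζ x.2 (cs ++ B) k).sum := by
  obtain ⟨S, T, rfl, rfl, rfl⟩ : ∃ S T, cs = [CS.web true S, CS.web true T] ∧ k' = card S ∧
      l = card T := by
    match cs, hcs with
    | [.web u S, .web v T], hcs =>
      simp only [List.map_cons, ty, List.map_nil, List.cons.injEq, Str.web.injEq, and_true] at hcs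
      obtain ⟨⟨rfl, rfl⟩, rfl, rfl⟩ := hcs
      exact ⟨S, T, rfl, rfl, rfl⟩
    | [.pole c e, .web v T], hcs => simp [ty] at hcs
    | [.web u S, .pole c e], hcs => simp [ty] at hcs
    | [.pole c e, .pole c' e'], hcs => simp [ty] at hcs
  have h1 := chk'_sound (ζ := ζ) h B k
  subst hX
  have h2 : ((X'.map fun x => ((x.1 : ℂ) * b⁻¹ ^ (card S * card T), x.2)).map fun x =>
      x.1 * actW ζ x.2 ([CS.web true S, CS.web true T] ++ B) k).sum =
      b⁻¹ ^ (card S * card T) * sm ζ X' ([CS.web true S, CS.web true T] ++ B) k := by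
    rw [sm, ← List.sum_map_mul_left, List.map_map]
    congr 1
    apply List.map_congr_left
    intro x _
    simp only [Function.comp_apply]
    ring
  rw [h2, h1]
  have h3 : zp ζ (cx o (CS.web true S) (CS.web true T)) = b⁻¹ ^ (card S * card T) := by
    cases o with
    | true =>
      simp only [cx, beq_self_eq_true, ↓reduceIte] at hb ⊢
      rw [hb, ← Nat.cast_mul, zp_neg_natCast hζ]
    | false =>
      simp only [cx, beq_self_eq_true, Bool.true_eq_false, Bool.false_eq_true, ↓reduceIte,
        beq_iff_eq] at hb ⊢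
      rw [hb, inv_inv, ← Nat.cast_mul, zp_natCast hζ]
  simp [actW, act, actAt, base, baseCr, h3, flip, val, Piece.pos]

end SkeinChk

open SkeinChk

theorem actW_skein {ζ : ℂ} (hζ : ζ ^ 3 = 1) {s t : List Str} {X Y : List (ℂ × List Piece)}
    (h : Skein 3 ζ s t X Y) (cs : List CS) (hcs : cs.map ty = s) (B : List CS) (k : Cont) :
    (X.map fun x => x.1 * actW ζ x.2 (cs ++ B) k).sum =
      (Y.map fun x => x.1 * actW ζ x.2 (cs ++ B) k).sum := by
  cases h with
  | digon k' l h =>
    have h' := digon_chk k' (by omega) l (by omega) h cs (mem_colors hcs lab_ne_pole)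
    rw [sm_eq [(1, [split 0 k' l, merge 0 k' l])] (by simp),
      sm_eq [(binZ ((k' + l : ℕ) : ℤ) k', [])] (by simp only [List.map_cons, List.map_nil, ← qbin_one, hζ])]
    exact chk_sound h' B k
  | loopR k' l h =>
    have h' := loopR_chk k' (by omega) l (by omega) h cs (mem_colors hcs lab_ne_pole)
    rw [sm_eq [(1, [cup (vis 3 k') true l] ++ mg 0 k' l ++ sp 0 k' l ++ [cap (vis 3 k')])]
        (by simp),
      sm_eq [(binZ ((3 - k' : ℕ) : ℤ) l, [])] (by simp only [List.map_cons, List.map_nil, ← qbin_one, hζ])]
    exact chk_sound h' B k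
  | loopL k' l h =>
    have h' := loopL_chk k' (by omega) l (by omega) h cs (mem_colors hcs lab_ne_pole)
    rw [sm_eq [(1, [cup 0 false l] ++ mg 1 l k' ++ sp 1 l k' ++ [cap 0])]
        (by simp),
      sm_eq [(binZ ((3 - k' : ℕ) : ℤ) l, [])] (by simp only [List.map_cons, List.map_nil, ← qbin_one, hζ])]
    exact chk_sound h' B k
  | assocMerge k' l j h =>
    have h' := assocMerge_chk k' (by omega) l (by omega) j (by omega) h cs
      (mem_colors hcs (by simp))
    rw [sm_eq [(1, [merge 0 k' l, merge 0 (k' + l) j])] (by simp),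
      sm_eq [(1, [merge 1 l j, merge 0 k' (l + j)])] (by simp)]
    exact chk_sound h' B k
  | assocSplit k' l j h =>
    have h' := assocSplit_chk k' (by omega) l (by omega) j (by omega) h cs
      (mem_colors hcs lab_ne_pole)
    rw [sm_eq [(1, [split 0 (k' + l) j, split 0 k' l])] (by simp),
      sm_eq [(1, [split 0 k' (l + j), split 1 l j])] (by simp)]
    exact chk_sound h' B k
  | tagMerge k' l h =>
    have h' := tagMerge_chk k' (by omega) l (by omega) h cs (mem_colors hcs (by simp))
    rw [sm_eq [(1, [cup 0 false k', merge 1 k' l])] (by simp),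
      sm_eq [((-1) ^ (k' * l), [cup 1 true k', merge 0 l k'])] (by simp)]
    exact chk_sound h' B k
  | tagSplit k' l h =>
    have h' := tagSplit_chk k' (by omega) l (by omega) h cs (mem_colors hcs (by simp))
    rw [sm_eq [(1, [split 1 k' l, cap 0])] (by simp),
      sm_eq [((-1) ^ (k' * l), [split 0 l k', cap 1])] (by simp)]
    exact chk_sound h' B k
  | squareFE k' l r s h =>
    have h' := squareFE_chk
    simp only [List.all_eq_true, List.mem_range, Bool.or_eq_true, Bool.not_eq_true',
      decide_eq_false_iff_not] at h'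
    have h' := (h' k' (by omega) l (by omega) r (by omega) s (by omega)).resolve_left
      (not_not_intro h)
    rw [tFE, List.all_eq_true] at h'
    have h'' := h' cs (mem_colors hcs (by
      intro x hx
      rw [List.mem_append] at hx
      rcases hx with hx | hx <;> exact lab_ne_pole x hx))
    rw [sm_eq [(1, ladF 3 k' l s ++ ladE 3 (k' + s) (l - s) r)] (by simp),
      sm_eq (((List.range (min r s + 1)).filter fun t => r ≤ k' + t ∧ l + r ≤ 3 + t).map fun t =>
        (binZ ((l : ℤ) - k' + r - s) t,
          ladE 3 k' l (r - t) ++ ladF 3 (k' - (r - t)) (l + (r - t)) (s - t)))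
        (by simp only [List.map_map, Function.comp_def, ← qbin_one, hζ])]
    exact chk_sound h'' B k
  | squareEF k' l r s h =>
    have h' := squareEF_chk
    simp only [List.all_eq_true, List.mem_range, Bool.or_eq_true, Bool.not_eq_true',
      decide_eq_false_iff_not] at h'
    have h' := (h' k' (by omega) l (by omega) r (by omega) s (by omega)).resolve_left
      (not_not_intro h)
    rw [tEF, List.all_eq_true] at h'
    have h'' := h' cs (mem_colors hcs (by
      intro x hx
      rw [List.mem_append] at hx
      rcases hx with hx | hx <;> exact lab_ne_pole x hx))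
    rw [sm_eq [(1, ladE 3 k' l r ++ ladF 3 (k' - r) (l + r) s)] (by simp),
      sm_eq (((List.range (min r s + 1)).filter fun t => s ≤ l + t ∧ k' + s ≤ 3 + t).map fun t =>
        (binZ ((k' : ℤ) - l + s - r) t,
          ladF 3 k' l (s - t) ++ ladE 3 (k' + (s - t)) (l - (s - t)) (r - t)))
        (by simp only [List.map_map, Function.comp_def, ← qbin_one, hζ])]
    exact chk_sound h'' B k
  | crossGe k' l o b hb h =>
    have h' := crossGe_chk k' (by omega) l (by omega) h cs (mem_colors hcs (by simp))
    exact cross_aux hζ hcs hb _ (by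
      rw [List.map_map]
      apply List.map_congr_left
      intro t _
      simp only [Function.comp_apply, b_cube hζ hb]
      push_cast
      congr 1
      ring) h' B k
  | crossLe k' l o b hb h =>
    have h' := crossLe_chk k' (by omega) l (by omega) h cs (mem_colors hcs (by simp))
    exact cross_aux hζ hcs hb _ (by
      rw [List.map_map]
      apply List.map_congr_left
      intro t _
      simp only [Function.comp_apply, b_cube hζ hb]
      push_cast
      congr 1
      ring) h' B k

end Pool.Agent.Helper26.SK
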